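import Pool.Agent.H27.L1.H34.GZZ.GBZ
import Pool.Agent.H36.THN.W2

/-!
Board thn, row GB2: the second moment at well spaced points in a window, from the second moment of the
truncated L-functions and the approximate functional equation.
-/

set_option autoImplicit false

namespace Pool.Agent.H36.THN

open MeasureTheory Pool.Agent.H27.L1.H34.GM Pool.Agent.H27.L1.H34.GZ
open Pool.Agent.H27.L1.H34.GU Pool.Agent.H27.L1.H34.GA
open Pool.Agent.H27.L1.H68.GHY Pool.Agent.H27.L1.H23.GB Pool.Agent.H27.L1.H34.GHY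
open Pool.Agent.H27.L1.H34.GZZ

/-- the points of a window moved to `0` -/
lemma wsp_shift {J : Finset ℝ} (hJ : Wsp J) (T0 : ℝ) : Wsp (J.image (fun t => t - T0)) := by
  intro t ht u hu hne
  rw [Finset.mem_image] at ht hu
  obtain ⟨t', ht', rfl⟩ := ht
  obtain ⟨u', hu', rfl⟩ := hu
  have h : t' ≠ u' := fun h => hne (by rw [h])
  have := hJ t' ht' u' hu' h
  rwa [show t' - T0 - (u' - T0) = t' - u' by ring]

lemma sub_inj (T0 : ℝ) : Function.Injective (fun t : ℝ => t - T0) := fun a b h => by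
  have : a - T0 = b - T0 := h
  linarith

/-- the number of well spaced points of a window -/
lemma wsp_cardw {J : Finset ℝ} (hJ : Wsp J) {H T0 : ℝ} (hH : 1 ≤ H) (h : ∀ t ∈ J, |t - T0| ≤ H) :
    (J.card : ℝ) ≤ 4 * H := by
  have h1 : (J.image (fun t => t - T0)).card = J.card :=
    Finset.card_image_of_injective _ (sub_inj T0)
  rw [← h1]
  refine wsp_card (wsp_shift hJ T0) hH ?_
  intro t ht
  rw [Finset.mem_image] at ht
  obtain ⟨t', ht', rfl⟩ := ht
  exact h t' ht'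

theorem gb2_core (hHYA : T_HYZ) (m : ℕ) (hm1 : 1 ≤ m) (e1 : ℝ) (he1 : 0 < e1) :
    ∃ C2 C : ℝ, 1 ≤ C2 ∧ 0 < C ∧
    ∀ (N : ℕ) [NeZero N] (T : ℕ → Finset (ZM m)) (D : Set (V m)), SysZ m N T D →
    ∀ Q H M T0 : ℝ, 1 ≤ H → H ≤ M → H + |T0| ≤ Q →
    ∀ (ι : Type) [Fintype ι] [DecidableEq ι] (F : ι → Mat m → VN m N → ℂ)
      (lam : ι → ℕ → ℂ) (W : ι → ℝ) (L : ι → ℂ → ℂ),
      (∀ i, CusB m N T (F i) (lam i) ∧ Lip D (F i) Q ∧ nU D (F i) = 1) → (∀ i, 0 ≤ W i) →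
      (∀ i, IsL m 1 (lam i) (L i)) →
      ∀ X : ℕ, C2 * ((N : ℝ) * Q ^ m) ^ (1 / 2 : ℝ) * (N * Q) ^ e1 ≤ X →
      ∀ R : ℝ, 0 ≤ R →
      (∀ τ : ℝ, ∑ i, ENNReal.ofReal (W i) *
          ∫⁻ t in Set.Icc (-M) M, ENNReal.ofReal (‖SD (lam i) X (t + τ)‖ ^ 2) ≤
            ENNReal.ofReal R) →
        ∀ J : ι → Finset ℝ, (∀ i, Wsp (J i)) → (∀ i, ∀ t ∈ J i, |t - T0| ≤ H) →
        ∑ i, W i * ∑ t ∈ J i, ‖L i (1 / 2 + t * Complex.I)‖ ^ 2 ≤
          C * ((N : ℝ) * Q) ^ (2 * e1) * ((∑ i, W i) * H + R) := by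
  obtain ⟨C2, hC2, hH⟩ := hHYA m hm1 e1 he1
  obtain ⟨k, hkd⟩ : ∃ k : ℝ → ℝ, k = fun τ => ((1 + |τ|) ^ 4)⁻¹ := ⟨_, rfl⟩
  have hkc : Continuous k := by
    rw [hkd]
    refine Continuous.inv₀ (by fun_prop) (fun τ => ?_)
    positivity
  have hknn : ∀ τ, 0 ≤ k τ := fun τ => by rw [hkd]; positivity
  have hk1 : ∀ τ, k τ ≤ 1 * ((1 + |τ|) ^ 4)⁻¹ := fun τ => by rw [hkd, one_mul]
  obtain ⟨C2', hC2'⟩ : ∃ C2' : ℝ, C2' = max C2 1 := ⟨_, rfl⟩
  have hC2'1 : 1 ≤ C2' := by rw [hC2']; exact le_max_right _ _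
  have hC2'2 : C2 ≤ C2' := by rw [hC2']; exact le_max_left _ _
  obtain ⟨B, hB, hW⟩ := wsp_int2 k hkc hknn 1 one_pos hk1
  obtain ⟨S2, hS2⟩ : ∃ S2 : ℝ, S2 = ∑' j : ℤ, ((1 + |(j : ℝ)|) ^ 2)⁻¹ := ⟨_, rfl⟩
  have hS2nn : 0 ≤ S2 := by rw [hS2]; exact tsum_nonneg (fun j => by positivity)
  refine ⟨C2', 2 * C2 ^ 2 * (4 + B * S2), hC2'1, by positivity, ?_⟩
  intro N _ T D hSys Q H M T0 hH1 hHM hQ ι _ _ F lam W L hF hW0 hLL X hX R hR hdyd J hJ hJH
  have hN0 : (0 : ℝ) < N := by exact_mod_cast NeZero.pos N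
  have hQ1 : 1 ≤ Q := by
    have := abs_nonneg T0
    linarith
  have hM1 : 1 ≤ M := hH1.trans hHM
  have hQ0 : 0 < Q := by linarith
  have hJQ : ∀ i, ∀ t ∈ J i, |t| ≤ Q := by
    intro i t ht
    have h1 := hJH i t ht
    have h2 : |t| ≤ |t - T0| + |T0| := by
      have := abs_add_le (t - T0) T0
      rwa [sub_add_cancel] at this
    linarith
  -- one value
  obtain ⟨f, hf⟩ : ∃ f : ι → ℝ → ℝ, f = fun i u => ‖SD (lam i) X u‖ := ⟨_, rfl⟩
  have hfc : ∀ i, Continuous (f i) := fun i => by rw [hf]; exact (sd_cont (lam i) X).norm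
  have hf0 : ∀ i u, 0 ≤ f i u := fun i u => by rw [hf]; exact norm_nonneg _
  have hfi : ∀ i t, Integrable (fun τ => k τ * f i (t + τ)) := by
    intro i t
    obtain ⟨Bb, hBb⟩ := sd_bdd (lam i) X
    refine krn_int4 hkc hknn hk1 (f i) (hfc i) Bb (fun u => ?_) t
    rw [abs_of_nonneg (hf0 i u), hf]
    exact hBb u
  have hval : ∀ i, ∀ t ∈ J i, ‖L i (1 / 2 + t * Complex.I)‖ ^ 2 ≤
      (2 * C2 ^ 2 * ((N : ℝ) * Q) ^ (2 * e1)) * (1 + (∫ τ : ℝ, k τ * f i (t + τ)) ^ 2) := by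
    intro i t ht
    have h1 := hH N T D hSys (F i) (lam i) Q (hF i).1 (hF i).2.2 (hF i).2.1 hQ1
      (L i) (hLL i) t (hJQ i t ht) X (by
        refine le_trans ?_ hX
        gcongr)
    have h2 : ∫ τ : ℝ, ((1 + |τ|) ^ 4)⁻¹ * ‖SX (lam i) X (1 / 2 + ((t + τ : ℝ) : ℂ) * Complex.I)‖ =
        ∫ τ : ℝ, k τ * f i (t + τ) := by
      refine integral_congr_ae (Filter.Eventually.of_forall (fun τ => ?_))
      show ((1 + |τ|) ^ 4)⁻¹ * _ = k τ * f i (t + τ)
      rw [hf, hkd]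
      simp only
      rw [← sx_sd]
    rw [h2] at h1
    have h3 : 0 ≤ ∫ τ : ℝ, k τ * f i (t + τ) :=
      integral_nonneg (fun τ => mul_nonneg (hknn τ) (hf0 i _))
    obtain ⟨I, hI⟩ : ∃ I : ℝ, I = ∫ τ : ℝ, k τ * f i (t + τ) := ⟨_, rfl⟩
    rw [← hI] at h1 h3 ⊢
    have h5 := pow_le_pow_left₀ (norm_nonneg _) h1 2
    refine h5.trans ?_
    have h6 : (1 + I) ^ 2 ≤ 2 * (1 + I ^ 2) := by nlinarith [sq_nonneg (I - 1)]
    have h7 : (((N : ℝ) * Q) ^ e1) ^ 2 = ((N : ℝ) * Q) ^ (2 * e1) := by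
      rw [← Real.rpow_natCast, ← Real.rpow_mul (by positivity)]
      congr 1
      push_cast
      ring
    calc (C2 * ((N : ℝ) * Q) ^ e1 * (1 + I)) ^ 2 = C2 ^ 2 * (((N : ℝ) * Q) ^ e1) ^ 2 * (1 + I) ^ 2 := by
          ring
      _ ≤ C2 ^ 2 * (((N : ℝ) * Q) ^ e1) ^ 2 * (2 * (1 + I ^ 2)) := by gcongr
      _ = _ := by rw [h7]; ring
  -- the sum of the smoothed values
  have hsm : ∑ i, W i * ∑ t ∈ J i, (∫ τ : ℝ, k τ * f i (t + τ)) ^ 2 ≤ B * S2 * R := by
    have e5 : ENNReal.ofReal (∑ i, W i * ∑ t ∈ J i, (∫ τ : ℝ, k τ * f i (t + τ)) ^ 2) ≤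
        ENNReal.ofReal (B * S2 * R) := by
      rw [ENNReal.ofReal_sum_of_nonneg (fun i _ => mul_nonneg (hW0 i) (Finset.sum_nonneg
        (fun t _ => sq_nonneg _)))]
      calc ∑ i, ENNReal.ofReal (W i * ∑ t ∈ J i, (∫ τ : ℝ, k τ * f i (t + τ)) ^ 2) =
          ∑ i, ENNReal.ofReal (W i) *
            ∑ t ∈ J i, ENNReal.ofReal ((∫ τ : ℝ, k τ * f i (t + τ)) ^ 2) := by
            refine Finset.sum_congr rfl (fun i _ => ?_)
            rw [ENNReal.ofReal_mul (hW0 i),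
              ENNReal.ofReal_sum_of_nonneg (fun t _ => sq_nonneg _)]
        _ ≤ ∑ i, ENNReal.ofReal (W i) * ∑' j : ℤ, ENNReal.ofReal (B * ((1 + |(j : ℝ)|) ^ 2)⁻¹) *
            ∫⁻ u in Set.Icc (-M) M, ENNReal.ofReal (f i (u + (2 * j * M + T0)) ^ 2) := by
            refine Finset.sum_le_sum (fun i _ => mul_le_mul_right ?_ _)
            have hi : ∀ t : ℝ, Integrable (fun τ => k τ * f i (t + τ + T0)) := fun t => by
              refine (hfi i (t + T0)).congr (Filter.Eventually.of_forall (fun τ => ?_))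
              show k τ * f i (t + T0 + τ) = k τ * f i (t + τ + T0)
              rw [show t + T0 + τ = t + τ + T0 by ring]
            have h8 := hW M ((J i).image (fun t => t - T0)) (fun u => f i (u + T0)) hM1
              (wsp_shift (hJ i) T0) (by
                intro t ht
                rw [Finset.mem_image] at ht
                obtain ⟨t', ht', rfl⟩ := ht
                exact (hJH i t' ht').trans hHM)
              ((hfc i).comp (continuous_id.add continuous_const)) (fun u => hf0 i _) hi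
            rw [Finset.sum_image (fun a _ b _ h => sub_inj T0 h)] at h8
            refine le_trans (le_of_eq ?_) (h8.trans (le_of_eq ?_))
            · refine Finset.sum_congr rfl (fun t _ => ?_)
              congr 2
              refine integral_congr_ae (Filter.Eventually.of_forall (fun τ => ?_))
              show k τ * f i (t + τ) = k τ * f i (t - T0 + τ + T0)
              rw [show t - T0 + τ + T0 = t + τ by ring]
            · refine tsum_congr (fun j => ?_)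
              congr 1
              refine lintegral_congr (fun u => ?_)
              rw [show u + 2 * (j : ℝ) * M + T0 = u + (2 * (j : ℝ) * M + T0) by ring]
        _ = ∑ i, ∑' j : ℤ, ENNReal.ofReal (B * ((1 + |(j : ℝ)|) ^ 2)⁻¹) *
            (ENNReal.ofReal (W i) *
              ∫⁻ u in Set.Icc (-M) M, ENNReal.ofReal (f i (u + (2 * j * M + T0)) ^ 2)) := by
            refine Finset.sum_congr rfl (fun i _ => ?_)
            rw [← ENNReal.tsum_mul_left]
            refine tsum_congr (fun j => ?_)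
            rw [mul_left_comm]
        _ = ∑' j : ℤ, ∑ i, ENNReal.ofReal (B * ((1 + |(j : ℝ)|) ^ 2)⁻¹) *
            (ENNReal.ofReal (W i) *
              ∫⁻ u in Set.Icc (-M) M, ENNReal.ofReal (f i (u + (2 * j * M + T0)) ^ 2)) :=
            (Summable.tsum_finsetSum (fun i _ => ENNReal.summable)).symm
        _ ≤ ∑' j : ℤ, ENNReal.ofReal (B * ((1 + |(j : ℝ)|) ^ 2)⁻¹) * ENNReal.ofReal R := by
            refine ENNReal.tsum_le_tsum (fun j => ?_)
            rw [← Finset.mul_sum]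
            refine mul_le_mul_right ?_ _
            have h9 := hdyd (2 * j * M + T0)
            rw [hf]
            exact h9
        _ = ENNReal.ofReal (B * S2 * R) := by
            rw [ENNReal.tsum_mul_right, ENNReal.ofReal_mul (by positivity)]
            congr 1
            rw [hS2, ← tsum_mul_left, ENNReal.ofReal_tsum_of_nonneg (fun j => by positivity)
              (summable_int_sq.mul_left B)]
    exact (ENNReal.ofReal_le_ofReal_iff (by positivity)).1 e5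
  -- the number of the points
  have hWs : 0 ≤ ∑ i, W i := Finset.sum_nonneg (fun i _ => hW0 i)
  have hct : ∑ i, W i * ∑ _t ∈ J i, (1 : ℝ) ≤ 4 * ((∑ i, W i) * H) := by
    calc ∑ i, W i * ∑ _t ∈ J i, (1 : ℝ) = ∑ i, W i * ((J i).card : ℝ) := by simp
      _ ≤ ∑ i, W i * (4 * H) := Finset.sum_le_sum (fun i _ =>
          mul_le_mul_of_nonneg_left (wsp_cardw (hJ i) hH1 (hJH i)) (hW0 i))
      _ = 4 * ((∑ i, W i) * H) := by
          rw [← Finset.sum_mul]
          ring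
  calc ∑ i, W i * ∑ t ∈ J i, ‖L i (1 / 2 + t * Complex.I)‖ ^ 2 ≤
      ∑ i, W i * ∑ t ∈ J i, (2 * C2 ^ 2 * ((N : ℝ) * Q) ^ (2 * e1)) *
        (1 + (∫ τ : ℝ, k τ * f i (t + τ)) ^ 2) :=
        Finset.sum_le_sum (fun i _ => mul_le_mul_of_nonneg_left
          (Finset.sum_le_sum (fun t ht => hval i t ht)) (hW0 i))
    _ = (2 * C2 ^ 2 * ((N : ℝ) * Q) ^ (2 * e1)) * (∑ i, W i * ∑ _t ∈ J i, (1 : ℝ) +
        ∑ i, W i * ∑ t ∈ J i, (∫ τ : ℝ, k τ * f i (t + τ)) ^ 2) := by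
        rw [← Finset.sum_add_distrib, Finset.mul_sum]
        refine Finset.sum_congr rfl (fun i _ => ?_)
        rw [← mul_add, ← Finset.sum_add_distrib, ← Finset.mul_sum]
        ring
    _ ≤ (2 * C2 ^ 2 * ((N : ℝ) * Q) ^ (2 * e1)) *
        (4 * ((∑ i, W i) * H) + B * S2 * R) := by
        gcongr
    _ ≤ (2 * C2 ^ 2 * ((N : ℝ) * Q) ^ (2 * e1)) *
        ((4 + B * S2) * ((∑ i, W i) * H + R)) := by
        refine mul_le_mul_of_nonneg_left ?_ (by positivity)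
        have e8 : 0 ≤ (∑ i, W i) * H := by positivity
        have e9 : 0 ≤ B * S2 := by positivity
        nlinarith [mul_nonneg e9 e8]
    _ = _ := by ring

end Pool.Agent.H36.THN
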