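import Pool.Agent.H47.THN.Targets
import Pool.Agent.H36.THN.GB2C

/-!
Board thn, row GK1: the second moment at well spaced points in a window, from the second moment of the
truncated L-functions and the approximate functional equation.
-/

set_option autoImplicit false

namespace Pool.Agent.H36.THN

open MeasureTheory Pool.Agent.H27.L1.H34.GM Pool.Agent.H27.L1.H34.GZ
open Pool.Agent.H27.L1.H34.GU Pool.Agent.H27.L1.H34.GA
open Pool.Agent.H27.L1.H68.GHY Pool.Agent.H27.L1.H23.GB Pool.Agent.H27.L1.H34.GHY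
open Pool.Agent.H27.L1.H34.GZZ

/-- larger Lipschitz constants -/
lemma lip_le {m N : ℕ} [NeZero N] {D : Set (V m)} {F : Mat m → VN m N → ℂ} {P Q : ℝ}
    (h : Lip D F P) (h0 : 0 ≤ P) (hPQ : P ≤ Q) : Lip D F Q := by
  intro w hw
  have h1 : 0 ≤ sz (w - 1) := norm_nonneg _
  exact (h w hw).trans (pow_le_pow_left₀ (by positivity) (mul_le_mul_of_nonneg_right hPQ h1) 2)

/-- the length -/
lemma len_le {m : ℕ} (hm1 : 1 ≤ m) {N Q e1 C2 X : ℝ} (hN : 1 ≤ N) (hQ : 1 ≤ Q)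
    (he2 : e1 ≤ 1) (hC2 : 1 ≤ C2) (hX0 : 0 ≤ X)
    (hX : X ≤ 2 * (C2 * (N * Q ^ m) ^ (1 / 2 : ℝ) * (N * Q) ^ e1)) :
    X ^ m ≤ (2 * C2) ^ m * (N ^ ((m : ℝ) / 2) * Q ^ ((m : ℝ) ^ 2 / 2)) * (N * Q) ^ (m * e1) ∧
      N * Q * X ≤ 2 * C2 * (N * Q) ^ ((m : ℝ) + 2) := by
  have hN0 : 0 < N := by linarith
  have hQ0 : 0 < Q := by linarith
  have hNQ : 1 ≤ N * Q := by nlinarith
  have hQm : 0 < Q ^ m := by positivity
  constructor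
  · have h1 := pow_le_pow_left₀ hX0 hX m
    refine h1.trans (le_of_eq ?_)
    have e2 : ((N * Q ^ m) ^ (1 / 2 : ℝ)) ^ m = N ^ ((m : ℝ) / 2) * Q ^ ((m : ℝ) ^ 2 / 2) := by
      rw [Real.mul_rpow hN0.le hQm.le, mul_pow, ← Real.rpow_natCast Q m, ← Real.rpow_mul hQ0.le,
        ← Real.rpow_natCast (N ^ (1 / 2 : ℝ)) m, ← Real.rpow_mul hN0.le,
        ← Real.rpow_natCast (Q ^ ((m : ℝ) * (1 / 2))) m, ← Real.rpow_mul hQ0.le]
      congr 2 <;> ring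
    have e3 : ((N * Q) ^ e1) ^ m = (N * Q) ^ (m * e1) := by
      rw [← Real.rpow_natCast, ← Real.rpow_mul (by positivity)]
      congr 1
      ring
    calc (2 * (C2 * (N * Q ^ m) ^ (1 / 2 : ℝ) * (N * Q) ^ e1)) ^ m =
        (2 * C2) ^ m * ((N * Q ^ m) ^ (1 / 2 : ℝ)) ^ m * ((N * Q) ^ e1) ^ m := by
          rw [← mul_pow, ← mul_pow]
          congr 1
          ring
      _ = _ := by rw [e2, e3]
  · have e4 : (N * Q ^ m) ^ (1 / 2 : ℝ) ≤ (N * Q) ^ (m : ℝ) := by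
      have h1 : N * Q ^ m ≤ (N * Q) ^ m := by
        rw [mul_pow]
        exact mul_le_mul_of_nonneg_right (le_self_pow₀ hN (by omega)) hQm.le
      have h2 : 1 ≤ (N * Q) ^ m := one_le_pow₀ hNQ
      calc (N * Q ^ m) ^ (1 / 2 : ℝ) ≤ ((N * Q) ^ m) ^ (1 / 2 : ℝ) :=
            Real.rpow_le_rpow (by positivity) h1 (by norm_num)
        _ ≤ ((N * Q) ^ m) ^ (1 : ℝ) := Real.rpow_le_rpow_of_exponent_le h2 (by norm_num)
        _ = (N * Q) ^ (m : ℝ) := by rw [Real.rpow_one, Real.rpow_natCast]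
    have e5 : (N * Q) ^ e1 ≤ N * Q := by
      calc (N * Q) ^ e1 ≤ (N * Q) ^ (1 : ℝ) := Real.rpow_le_rpow_of_exponent_le hNQ he2
        _ = N * Q := Real.rpow_one _
    have h3 : 0 ≤ (N * Q ^ m) ^ (1 / 2 : ℝ) := by positivity
    have h4 : 0 ≤ (N * Q) ^ e1 := by positivity
    have h5 : (N * Q) ^ ((m : ℝ) + 2) = (N * Q) ^ (m : ℝ) * (N * Q) * (N * Q) := by
      rw [Real.rpow_add (by positivity)]
      have : (N * Q) ^ (2 : ℝ) = (N * Q) * (N * Q) := by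
        rw [show (2 : ℝ) = ((2 : ℕ) : ℝ) by norm_num, Real.rpow_natCast]
        ring
      rw [this]
      ring
    rw [h5]
    calc N * Q * X ≤ N * Q * (2 * (C2 * (N * Q) ^ (m : ℝ) * (N * Q))) := by
          refine mul_le_mul_of_nonneg_left (hX.trans ?_) (by positivity)
          gcongr
      _ = _ := by ring

theorem pf_GK1 (hENA : T_ENA) (hHYZ : T_HYZ) : Pool.Agent.H47.THN.T_GK1 := by
  intro m hm1 ε hε
  obtain ⟨e1, he1, he2, he3⟩ : ∃ e1 : ℝ, 0 < e1 ∧ e1 ≤ 1 ∧ (3 * m + 6) * e1 ≤ ε := by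
    refine ⟨min 1 (ε / (3 * m + 6)), lt_min one_pos (by positivity), min_le_left _ _, ?_⟩
    have h := min_le_right (1 : ℝ) (ε / (3 * m + 6))
    have h3 : (0 : ℝ) < 3 * m + 6 := by positivity
    calc (3 * (m : ℝ) + 6) * min 1 (ε / (3 * m + 6)) ≤ (3 * m + 6) * (ε / (3 * m + 6)) :=
          mul_le_mul_of_nonneg_left h h3.le
      _ = ε := by field_simp
  obtain ⟨C2, C0, hC2, hC0, hcore⟩ := gb2_core hHYZ m hm1 e1 he1
  refine ⟨e1, he1, ?_⟩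
  intro c' C1 C3 hc' hc'1 hC1 hC3
  have hmm : (0 : ℝ) ≤ m := Nat.cast_nonneg m
  have hc'i : 1 ≤ c'⁻¹ := by
    rw [one_le_inv₀ hc']
    linarith
  -- the constants
  obtain ⟨A1, hA1⟩ : ∃ A1 : ℝ, A1 = C3 * (c'⁻¹ ^ e1 * c'⁻¹ ^ (m ^ 2)) := ⟨_, rfl⟩
  obtain ⟨A2, hA2⟩ : ∃ A2 : ℝ, A2 = C1 * (c'⁻¹ * (2 * C2)) ^ (2 * e1) *
    (2 ^ m * (c'⁻¹ ^ (m ^ 2) + (2 * C2) ^ m)) := ⟨_, rfl⟩
  have hA10 : 0 < A1 := by rw [hA1]; positivity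
  have hA20 : 0 < A2 := by rw [hA2]; positivity
  refine ⟨C0 * (A1 + A2), by positivity, ?_⟩
  intro N _ T D hSys H hH1 ι _ _ F lam W hF hW0 δ hδ hcard hdyd
  have hnz : ∀ i, NZ (F i) := fun i => mou_nz hm1 hSys.dom (F i) (by
    rw [(hF i).2.2]; exact one_ne_zero)
  have hL0 : ∀ i, ∃ L : ℂ → ℂ, IsL m 1 (lam i) L ∧ ∀ ψ : ℝ → ℂ, Wc m ψ (lam i) →
      ∀ s : ℂ, LmA m ψ (lam i) s = L s * MelA m ψ s := fun i =>
    hENA m N T D hSys (F i) (lam i) (hF i).1 (hnz i)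
  choose L hLL hLm using hL0
  refine ⟨L, hLL, ?_⟩
  intro t0 J hJ hJH
  -- parameters
  have hH0 : 0 < H := by linarith
  have hN1 : (1 : ℝ) ≤ N := by exact_mod_cast NeZero.one_le
  have hN0 : (0 : ℝ) < N := by linarith
  have hδi : δ⁻¹ = c'⁻¹ * H := by rw [hδ]; field_simp
  have hδ0 : 0 < δ := by rw [hδ]; positivity
  have hHδ : H ≤ δ⁻¹ := by
    rw [hδi]
    exact le_mul_of_one_le_left hH0.le hc'i
  obtain ⟨Q, hQd⟩ : ∃ Q : ℝ, Q = H + |t0| := ⟨_, rfl⟩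
  have hHQ : H ≤ Q := by
    have := abs_nonneg t0
    linarith
  have hQ1 : 1 ≤ Q := hH1.trans hHQ
  have hQ0 : 0 < Q := by linarith
  have hNQ : 1 ≤ (N : ℝ) * Q := by nlinarith
  rw [← hQd]
  -- the length
  obtain ⟨X0, hX0⟩ : ∃ X0 : ℝ, X0 = C2 * ((N : ℝ) * Q ^ m) ^ (1 / 2 : ℝ) * (N * Q) ^ e1 := ⟨_, rfl⟩
  have hX01 : 1 ≤ X0 := by
    rw [hX0]
    have e1' : 1 ≤ ((N : ℝ) * Q ^ m) ^ (1 / 2 : ℝ) := by
      refine Real.one_le_rpow ?_ (by norm_num)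
      have : 1 ≤ Q ^ m := one_le_pow₀ hQ1
      nlinarith
    have e2' : 1 ≤ ((N : ℝ) * Q) ^ e1 := Real.one_le_rpow hNQ he1.le
    calc (1 : ℝ) = 1 * 1 * 1 := by norm_num
      _ ≤ _ := by gcongr
  obtain ⟨X, hX⟩ : ∃ X : ℕ, X = ⌈X0⌉₊ := ⟨_, rfl⟩
  have hXge : X0 ≤ X := by rw [hX]; exact Nat.le_ceil _
  have hXle : (X : ℝ) ≤ 2 * X0 := by
    rw [hX]
    have := Nat.ceil_lt_add_one (by linarith : 0 ≤ X0)
    linarith
  have hX1 : (1 : ℝ) ≤ X := hX01.trans hXge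
  have hXnn : (0 : ℝ) ≤ X := by linarith
  obtain ⟨hl1, hl2⟩ := len_le hm1 hN1 hQ1 he2 hC2 hXnn (by rw [← hX0]; exact hXle)
  -- the bound of the mean square
  obtain ⟨R, hR⟩ : ∃ R : ℝ, R = C1 * ((N : ℝ) * δ⁻¹ * X) ^ (2 * e1) * (N : ℝ) ^ m *
    δ⁻¹ ^ (m ^ 2) * (1 + δ ^ m * X / N) ^ m := ⟨_, rfl⟩
  have hR0 : 0 ≤ R := by rw [hR]; positivity
  have hmain := hcore N T D hSys Q H δ⁻¹ t0 hH1 hHδ hQd.ge ι F lam W L
    (fun i => ⟨(hF i).1, lip_le (hF i).2.1 hH0.le hHQ, (hF i).2.2⟩) hW0 hLL X (by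
      rw [← hX0]; exact hXge) R hR0 (fun τ => by rw [hR]; exact hdyd X hX1 τ) J hJ hJH
  refine hmain.trans ?_
  -- the size
  obtain ⟨Z, hZ⟩ : ∃ Z : ℝ, Z = Pool.Agent.H47.THN.Q2 m N H t0 := ⟨_, rfl⟩
  have hZe : Z = (N : ℝ) ^ m * H ^ (m ^ 2) + (N : ℝ) ^ ((m : ℝ) / 2) * Q ^ ((m : ℝ) ^ 2 / 2) := by
    rw [hZ, hQd]
    rfl
  have hZ1 : (N : ℝ) ^ m * H ^ (m ^ 2) ≤ Z := by
    rw [hZe]
    exact le_add_of_nonneg_right (by positivity)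
  have hZ2 : (N : ℝ) ^ ((m : ℝ) / 2) * Q ^ ((m : ℝ) ^ 2 / 2) ≤ Z := by
    rw [hZe]
    exact le_add_of_nonneg_left (by positivity)
  have hZ0 : 0 ≤ Z := by rw [hZe]; positivity
  rw [← hZ]
  have hpw : δ⁻¹ ^ (m ^ 2) = c'⁻¹ ^ (m ^ 2) * H ^ (m ^ 2) := by rw [hδi, mul_pow]
  -- the weights
  have hWs : 0 ≤ ∑ i, W i := Finset.sum_nonneg (fun i _ => hW0 i)
  have b1 : (∑ i, W i) * H ≤ A1 * ((N : ℝ) * Q) ^ e1 * Z := by
    calc (∑ i, W i) * H ≤ (∑ i, W i) * δ⁻¹ := mul_le_mul_of_nonneg_left hHδ hWs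
      _ ≤ C3 * ((N : ℝ) * δ⁻¹) ^ e1 * (N : ℝ) ^ m * δ⁻¹ ^ (m ^ 2) := hcard
      _ = C3 * (c'⁻¹ ^ e1 * c'⁻¹ ^ (m ^ 2)) * ((N : ℝ) * H) ^ e1 *
          ((N : ℝ) ^ m * H ^ (m ^ 2)) := by
          rw [hpw, hδi, show (N : ℝ) * (c'⁻¹ * H) = c'⁻¹ * (N * H) by ring,
            Real.mul_rpow (by positivity) (by positivity)]
          ring
      _ ≤ A1 * ((N : ℝ) * Q) ^ e1 * Z := by
          rw [hA1]
          gcongr
  -- the mean square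
  have b2 : R ≤ A2 * ((N : ℝ) * Q) ^ ((3 * (m : ℝ) + 4) * e1) * Z := by
    have c1 : ((N : ℝ) * δ⁻¹ * X) ^ (2 * e1) ≤
        (c'⁻¹ * (2 * C2)) ^ (2 * e1) * ((N : ℝ) * Q) ^ ((2 * (m : ℝ) + 4) * e1) := by
      have d1 : (N : ℝ) * δ⁻¹ * X ≤ c'⁻¹ * (2 * C2) * ((N : ℝ) * Q) ^ ((m : ℝ) + 2) := by
        calc (N : ℝ) * δ⁻¹ * X = c'⁻¹ * (N * H * X) := by rw [hδi]; ring
          _ ≤ c'⁻¹ * (N * Q * X) := by gcongr
          _ ≤ c'⁻¹ * (2 * C2 * ((N : ℝ) * Q) ^ ((m : ℝ) + 2)) := by gcongr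
          _ = _ := by ring
      calc ((N : ℝ) * δ⁻¹ * X) ^ (2 * e1) ≤
          (c'⁻¹ * (2 * C2) * ((N : ℝ) * Q) ^ ((m : ℝ) + 2)) ^ (2 * e1) :=
            Real.rpow_le_rpow (by positivity) d1 (by positivity)
        _ = _ := by
            rw [Real.mul_rpow (by positivity) (by positivity), ← Real.rpow_mul (by positivity)]
            congr 2
            ring
    have c2 : (N : ℝ) ^ m * δ⁻¹ ^ (m ^ 2) * (1 + δ ^ m * X / N) ^ m ≤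
        2 ^ m * ((N : ℝ) ^ m * δ⁻¹ ^ (m ^ 2) + (X : ℝ) ^ m) := by
      have d2 : (1 + δ ^ m * X / N) ^ m ≤ 2 ^ m * (1 + (δ ^ m * X / N) ^ m) := by
        have d3 : 0 ≤ δ ^ m * X / N := by positivity
        rcases le_total 1 (δ ^ m * X / N) with h | h
        · calc (1 + δ ^ m * X / N) ^ m ≤ (2 * (δ ^ m * X / N)) ^ m :=
              pow_le_pow_left₀ (by positivity) (by linarith) m
            _ = 2 ^ m * (δ ^ m * X / N) ^ m := mul_pow _ _ _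
            _ ≤ 2 ^ m * (1 + (δ ^ m * X / N) ^ m) := by
                refine mul_le_mul_of_nonneg_left ?_ (by positivity)
                linarith
        · calc (1 + δ ^ m * X / N) ^ m ≤ 2 ^ m :=
              pow_le_pow_left₀ (by positivity) (by linarith) m
            _ ≤ 2 ^ m * (1 + (δ ^ m * X / N) ^ m) := by
                refine le_mul_of_one_le_right (by positivity) ?_
                have : 0 ≤ (δ ^ m * X / N) ^ m := by positivity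
                linarith
      have d4 : (N : ℝ) ^ m * δ⁻¹ ^ (m ^ 2) * (δ ^ m * X / N) ^ m = (X : ℝ) ^ m := by
        rw [div_pow, mul_pow, ← pow_mul, show m * m = m ^ 2 by ring, inv_pow]
        field_simp
      calc (N : ℝ) ^ m * δ⁻¹ ^ (m ^ 2) * (1 + δ ^ m * X / N) ^ m ≤
          (N : ℝ) ^ m * δ⁻¹ ^ (m ^ 2) * (2 ^ m * (1 + (δ ^ m * X / N) ^ m)) := by gcongr
        _ = 2 ^ m * ((N : ℝ) ^ m * δ⁻¹ ^ (m ^ 2) +
            (N : ℝ) ^ m * δ⁻¹ ^ (m ^ 2) * (δ ^ m * X / N) ^ m) := by ring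
        _ = _ := by rw [d4]
    have c3 : (N : ℝ) ^ m * δ⁻¹ ^ (m ^ 2) + (X : ℝ) ^ m ≤
        (c'⁻¹ ^ (m ^ 2) + (2 * C2) ^ m) * ((N : ℝ) * Q) ^ (m * e1) * Z := by
      have d5 : 1 ≤ ((N : ℝ) * Q) ^ (m * e1) := Real.one_le_rpow hNQ (by positivity)
      have d6 : (N : ℝ) ^ m * δ⁻¹ ^ (m ^ 2) ≤ c'⁻¹ ^ (m ^ 2) * ((N : ℝ) * Q) ^ (m * e1) * Z := by
        calc (N : ℝ) ^ m * δ⁻¹ ^ (m ^ 2) = c'⁻¹ ^ (m ^ 2) * 1 * ((N : ℝ) ^ m * H ^ (m ^ 2)) := by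
              rw [hpw]
              ring
          _ ≤ _ := by gcongr
      have d7 : (X : ℝ) ^ m ≤ (2 * C2) ^ m * ((N : ℝ) * Q) ^ (m * e1) * Z := by
        calc (X : ℝ) ^ m ≤ (2 * C2) ^ m * ((N : ℝ) ^ ((m : ℝ) / 2) * Q ^ ((m : ℝ) ^ 2 / 2)) *
              ((N : ℝ) * Q) ^ (m * e1) := hl1
          _ ≤ (2 * C2) ^ m * Z * ((N : ℝ) * Q) ^ (m * e1) := by gcongr
          _ = _ := by ring
      calc _ ≤ c'⁻¹ ^ (m ^ 2) * ((N : ℝ) * Q) ^ (m * e1) * Z +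
          (2 * C2) ^ m * ((N : ℝ) * Q) ^ (m * e1) * Z := add_le_add d6 d7
        _ = _ := by ring
    calc R = C1 * ((N : ℝ) * δ⁻¹ * X) ^ (2 * e1) *
          ((N : ℝ) ^ m * δ⁻¹ ^ (m ^ 2) * (1 + δ ^ m * X / N) ^ m) := by rw [hR]; ring
      _ ≤ C1 * ((c'⁻¹ * (2 * C2)) ^ (2 * e1) * ((N : ℝ) * Q) ^ ((2 * (m : ℝ) + 4) * e1)) *
          (2 ^ m * ((c'⁻¹ ^ (m ^ 2) + (2 * C2) ^ m) * ((N : ℝ) * Q) ^ (m * e1) * Z)) := by
          exact mul_le_mul (mul_le_mul_of_nonneg_left c1 hC1.le)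
            (c2.trans (mul_le_mul_of_nonneg_left c3 (by positivity))) (by positivity)
            (by positivity)
      _ = A2 * (((N : ℝ) * Q) ^ ((2 * (m : ℝ) + 4) * e1) * ((N : ℝ) * Q) ^ (m * e1)) * Z := by
          rw [hA2]
          ring
      _ = _ := by
          rw [← Real.rpow_add (by positivity)]
          congr 3
          ring
  have f1 : ((N : ℝ) * Q) ^ (2 * e1) * ((N : ℝ) * Q) ^ e1 ≤ ((N : ℝ) * Q) ^ ε := by
    rw [← Real.rpow_add (by positivity)]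
    refine Real.rpow_le_rpow_of_exponent_le hNQ ?_
    nlinarith [mul_nonneg hmm he1.le]
  have f2 : ((N : ℝ) * Q) ^ (2 * e1) * ((N : ℝ) * Q) ^ ((3 * (m : ℝ) + 4) * e1) ≤
      ((N : ℝ) * Q) ^ ε := by
    rw [← Real.rpow_add (by positivity)]
    refine Real.rpow_le_rpow_of_exponent_le hNQ ?_
    nlinarith
  calc C0 * ((N : ℝ) * Q) ^ (2 * e1) * ((∑ i, W i) * H + R) ≤
      C0 * ((N : ℝ) * Q) ^ (2 * e1) * (A1 * ((N : ℝ) * Q) ^ e1 * Z +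
        A2 * ((N : ℝ) * Q) ^ ((3 * (m : ℝ) + 4) * e1) * Z) := by
        gcongr
    _ = C0 * (A1 * (((N : ℝ) * Q) ^ (2 * e1) * ((N : ℝ) * Q) ^ e1) +
        A2 * (((N : ℝ) * Q) ^ (2 * e1) * ((N : ℝ) * Q) ^ ((3 * (m : ℝ) + 4) * e1))) * Z := by ring
    _ ≤ C0 * (A1 * ((N : ℝ) * Q) ^ ε + A2 * ((N : ℝ) * Q) ^ ε) * Z := by gcongr
    _ = _ := by ring

end Pool.Agent.H36.THN
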